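import Pool.Agent.Lib_helper36.SRC.Tools
import Pool.Agent.Lib_helper79.SRC.Small

set_option autoImplicit false

/-! # Explicit coefficients of `x^k e^{-ν x}`, `y e^{-ν x}`, `y² e^{-ν x}`, membership of
polynomials times products of coins, and the `R`-criterion for `∏ (1 + s y) + w y + r y²` -/

namespace Pool.Agent.Lib_helper35.SRC

open Finset PowerSeries Pool.Agent.Lib_helper36.SRC Pool.Agent.Lib_helper79.SRC

/-- `x^k e^{-ν x}` in powers of `x e^{-x}` -/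
noncomputable def xk (k : ℕ) (ν : ℝ) : ℝ⟦X⟧ := X ^ k * ab (k - ν)

lemma S_xk (k : ℕ) (ν : ℝ) : S (xk k ν) = X ^ k * Ex (-ν) := by
  unfold xk
  rw [map_mul, S_X_pow, S_ab, mul_assoc, ← Ex_add]
  congr 2
  ring

lemma coeff_xk_lt (k n : ℕ) (ν : ℝ) (h : n < k) : coeff n (xk k ν) = 0 := by
  unfold xk
  rw [coeff_X_pow_mul', if_neg (by omega)]

lemma coeff_xk_self (k : ℕ) (ν : ℝ) : coeff k (xk k ν) = 1 := by
  unfold xk
  rw [coeff_X_pow_mul', if_pos le_rfl, Nat.sub_self, coeff_ab_zero]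

lemma coeff_xk (k m : ℕ) (ν : ℝ) : coeff (k + (m + 1)) (xk k ν)
    = (k - ν) * ((k : ℝ) + (m + 1) - ν) ^ m / (m + 1).factorial := by
  unfold xk
  rw [coeff_X_pow_mul', if_pos (by omega), Nat.add_sub_cancel_left, coeff_ab_succ]
  congr 2
  ring

/-- `xk (k+1) ν = X * xk k (ν - 1)` -/
lemma xk_succ (k : ℕ) (ν : ℝ) : xk (k + 1) ν = X * xk k (ν - 1) := by
  unfold xk
  have : (((k + 1 : ℕ) : ℝ) - ν) = (k : ℝ) - (ν - 1) := by push_cast; ring
  rw [this, pow_succ']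
  ring

lemma xk_zero (ν : ℝ) : xk 0 ν = ab (-ν) := by
  unfold xk
  rw [pow_zero, one_mul]
  congr 1
  simp

/-- `y e^{-ν x}` in powers of `x e^{-x}` -/
noncomputable def y1 (ν : ℝ) : ℝ⟦X⟧ := xk 1 ν - xk 0 ν

/-- `y² e^{-ν x}` in powers of `x e^{-x}` -/
noncomputable def y2 (ν : ℝ) : ℝ⟦X⟧ := xk 2 ν - 2 * xk 1 ν + xk 0 ν

lemma S_y1 (ν : ℝ) : S (y1 ν) = (X - 1) * Ex (-ν) := by
  unfold y1
  rw [map_sub, S_xk, S_xk]; ring

lemma S_y2 (ν : ℝ) : S (y2 ν) = (X - 1) ^ 2 * Ex (-ν) := by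
  unfold y2
  rw [map_add, map_sub, map_mul, S_xk, S_xk, S_xk, map_ofNat]; ring

lemma coeff_y1_zero (ν : ℝ) : coeff 0 (y1 ν) = -1 := by
  unfold y1
  rw [map_sub, coeff_xk_lt 1 0 ν (by omega), coeff_xk_self]; ring

lemma coeff_y1_one (ν : ℝ) : coeff 1 (y1 ν) = 1 + ν := by
  unfold y1
  rw [map_sub, coeff_xk_self, show (1 : ℕ) = 0 + (0 + 1) by rfl, coeff_xk 0 0 ν]
  simp

/-- `n! [t^n] y e^{-ν x} = (n - ν)^{n-2} (n - ν²)`, `n ≥ 2` -/
lemma coeff_y1 (n : ℕ) (ν : ℝ) : coeff (n + 2) (y1 ν)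
    = ((n : ℝ) + 2 - ν) ^ n * ((n : ℝ) + 2 - ν ^ 2) / (n + 2).factorial := by
  unfold y1
  have h1 : n + 2 = 1 + (n + 1) := by ring
  have h0 : n + 2 = 0 + ((n + 1) + 1) := by ring
  rw [map_sub, h1, coeff_xk 1 n ν, ← h1, h0, coeff_xk 0 (n + 1) ν, ← h0,
    Nat.factorial_succ (n + 1)]
  have f : (((n + 1).factorial : ℕ) : ℝ) ≠ 0 := by exact_mod_cast (n + 1).factorial_ne_zero
  have g : (n : ℝ) + 1 + 1 ≠ 0 := by positivity
  push_cast
  have e1 : (1 : ℝ) + ((n : ℝ) + 1) - ν = n + 2 - ν := by ring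
  have e2 : (0 : ℝ) + ((n : ℝ) + 1 + 1) - ν = n + 2 - ν := by ring
  rw [e1, e2, pow_succ]
  field_simp
  ring

lemma coeff_y2_zero (ν : ℝ) : coeff 0 (y2 ν) = 1 := by
  unfold y2
  have h2 : (2 : ℝ⟦X⟧) = C 2 := (map_ofNat C 2).symm
  rw [map_add, map_sub, h2, coeff_C_mul, coeff_xk_lt 2 0 ν (by omega), coeff_xk_lt 1 0 ν (by omega),
    coeff_xk_self]; ring

lemma coeff_y2_one (ν : ℝ) : coeff 1 (y2 ν) = -(2 + ν) := by
  unfold y2
  have h2 : (2 : ℝ⟦X⟧) = C 2 := (map_ofNat C 2).symm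
  have a0 := coeff_xk 0 0 ν
  norm_num at a0
  rw [map_add, map_sub, h2, coeff_C_mul, coeff_xk_lt 2 1 ν (by omega), coeff_xk_self, a0]
  ring

lemma coeff_y2_two (ν : ℝ) : coeff 2 (y2 ν) = (ν ^ 2 + 2 * ν - 2) / 2 := by
  unfold y2
  have h2 : (2 : ℝ⟦X⟧) = C 2 := (map_ofNat C 2).symm
  rw [map_add, map_sub, h2, coeff_C_mul, coeff_xk_self]
  have a1 := coeff_xk 1 0 ν
  have a0 := coeff_xk 0 1 ν
  norm_num at a1 a0
  rw [a1, a0]
  ring

/-- `n! [t^n] y² e^{-ν x} = (n - ν)^{n-3} ((3 ν - 2) n - ν³)`, `n ≥ 3` -/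
lemma coeff_y2 (n : ℕ) (ν : ℝ) : coeff (n + 3) (y2 ν)
    = ((n : ℝ) + 3 - ν) ^ n * ((3 * ν - 2) * ((n : ℝ) + 3) - ν ^ 3) / (n + 3).factorial := by
  unfold y2
  have h2 : (2 : ℝ⟦X⟧) = C 2 := (map_ofNat C 2).symm
  have k2 : n + 3 = 2 + (n + 1) := by ring
  have k1 : n + 3 = 1 + ((n + 1) + 1) := by ring
  have k0 : n + 3 = 0 + ((n + 2) + 1) := by ring
  rw [map_add, map_sub, h2, coeff_C_mul, k2, coeff_xk 2 n ν, ← k2, k1, coeff_xk 1 (n + 1) ν, ← k1,
    k0, coeff_xk 0 (n + 2) ν, ← k0, Nat.factorial_succ (n + 2), Nat.factorial_succ (n + 1)]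
  have f : (((n + 1).factorial : ℕ) : ℝ) ≠ 0 := by exact_mod_cast (n + 1).factorial_ne_zero
  have g : (n : ℝ) + 1 + 1 ≠ 0 := by positivity
  have g' : (n : ℝ) + 2 + 1 ≠ 0 := by positivity
  push_cast
  have e1 : (2 : ℝ) + ((n : ℝ) + 1) - ν = n + 3 - ν := by ring
  have e2 : (1 : ℝ) + ((n : ℝ) + 1 + 1) - ν = n + 3 - ν := by ring
  have e3 : (0 : ℝ) + ((n : ℝ) + 2 + 1) - ν = n + 3 - ν := by ring
  rw [e1, e2, e3, pow_succ, pow_succ, pow_succ]
  field_simp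
  ring

/-- the transform `F ↦ F e^{-ν x}` decides membership -/
lemma inW_iff_NN {ν : ℝ} {F τ : ℝ⟦X⟧} (h : S τ = F * Ex (-ν)) : InW ν F ↔ NN τ := by
  rw [inW_iff]
  constructor
  · rintro ⟨σ, hσ, hF⟩
    have : τ = σ := by
      apply S_injective
      rw [h, hF, mul_comm (Ex ν), mul_assoc, Ex_mul_neg, mul_one]
    rw [this]; exact hσ
  · intro hτ
    refine ⟨τ, hτ, ?_⟩
    rw [h, mul_comm, mul_assoc, mul_comm (Ex (-ν)), Ex_mul_neg, mul_one]

/-- product of coins, normalized -/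
lemma S_prod_kc (as : List ℝ) : S (as.map kc).prod = prodC as * Ex (-as.sum) := by
  induction as with
  | nil => rw [List.map_nil, List.prod_nil, map_one, prodC_nil, List.sum_nil, neg_zero, Ex_zero, mul_one]
  | cons a as ih =>
    rw [List.map_cons, List.prod_cons, map_mul, S_kc, ih, prodC_cons, List.sum_cons, neg_add, Ex_add]
    ring

/-- products transform to products -/
lemma S_mul_of {ν μ : ℝ} {F G σ τ : ℝ⟦X⟧} (hF : S σ = F * Ex (-ν)) (hG : S τ = G * Ex (-μ)) :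
    S (σ * τ) = F * G * Ex (-(ν + μ)) := by
  rw [map_mul, hF, hG, neg_add, Ex_add]; ring

/-- the transform of `∏ (1 + s y) + w y + r y²` in the frame `ν` -/
noncomputable def starS (as : List ℝ) (w r ν : ℝ) : ℝ⟦X⟧ :=
  (as.map kc).prod * ab (as.sum - ν) + C w * y1 ν + C r * y2 ν

lemma S_starS (as : List ℝ) (w r ν : ℝ) :
    S (starS as w r ν) = (prodC as + C w * (X - 1) + C r * (X - 1) ^ 2) * Ex (-ν) := by
  unfold starS
  rw [map_add, map_add, map_mul, map_mul, map_mul, S_prod_kc, S_ab, S_C, S_C, S_y1, S_y2, mul_assoc,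
    ← Ex_add]
  have : -as.sum + (as.sum - ν) = -ν := by ring
  rw [this]
  ring

/-- membership of `∏ (1 + s y) + w y + r y²` is the positivity of `starS` -/
theorem inW_star_iff (as : List ℝ) (w r ν : ℝ) :
    InW ν (prodC as + C w * (X - 1) + C r * (X - 1) ^ 2) ↔ NN (starS as w r ν) :=
  inW_iff_NN (S_starS as w r ν)

lemma deriv_C_mul' (t : ℝ) (G : ℝ⟦X⟧) : (d⁄dX ℝ) (C t * G) = C t * (d⁄dX ℝ) G := by
  rw [Derivation.leibniz, derivative_C, smul_zero, add_zero, smul_eq_mul]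

/-- the identity behind the `R`-criterion -/
lemma deriv_star (as : List ℝ) (w r : ℝ) :
    (d⁄dX ℝ) (prodC as + C w * (X - 1) + C r * (X - 1) ^ 2)
      - C (as.sum + w) * (prodC as + C w * (X - 1) + C r * (X - 1) ^ 2)
    = (1 - X) * (sqC as + C w * quC as + C ((as.sum + w) * w - 2 * r) * 1
        + C ((as.sum + w) * r) * (X - 1)) := by
  have h1 := deriv_prodC as
  have h2 := prodC_sub_one as
  have h3 : (d⁄dX ℝ) ((X - 1 : ℝ⟦X⟧) ^ 2) = 2 * (X - 1) := by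
    rw [pow_two, Derivation.leibniz, map_sub, derivative_X]
    simp only [Derivation.map_one_eq_zero, smul_eq_mul]
    ring
  rw [map_add, map_add, deriv_C_mul', deriv_C_mul', h3, map_sub, derivative_X,
    Derivation.map_one_eq_zero]
  simp only [map_mul, map_add, map_sub, map_ofNat]
  linear_combination h1 - C w * h2

/-- **`R`-criterion** for `∏ (1 + s y) + w y + r y²` at its mean `∑ s + w`:
`R = ∑ s² ∏ + w (∏ - 1)/y + (ν w - 2 r) + ν r y` -/
theorem inW_star_of_R (as : List ℝ) (w r : ℝ)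
    (h0 : w ≤ (as.map (fun s => 1 - s)).prod + r)
    (hR : InW (as.sum + w - 1) (sqC as + C w * quC as + C ((as.sum + w) * w - 2 * r) * 1
        + C ((as.sum + w) * r) * (X - 1))) :
    InW (as.sum + w) (prodC as + C w * (X - 1) + C r * (X - 1) ^ 2) := by
  apply InW.of_deriv _ hR (deriv_star as w r)
  rw [map_add, map_add, constCoeff_prodC]
  simp
  linarith

/-- the transform of `sqC` -/
noncomputable def sqT : List ℝ → ℝ⟦X⟧
  | [] => 0
  | a :: as => C (a ^ 2) * (as.map kc).prod * ab (-a) + kc a * sqT as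

lemma S_sqT (as : List ℝ) : S (sqT as) = sqC as * Ex (-as.sum) := by
  induction as with
  | nil => rw [sqT, sqC, map_zero, zero_mul]
  | cons a as ih =>
    rw [sqT, sqC, map_add, map_mul, map_mul, map_mul, S_C, S_prod_kc, S_ab, S_kc, ih, List.sum_cons,
      neg_add, Ex_add]
    ring

/-- the transform of `quC`: `quC as = ∑ s_i ∏_{j > i} (1 + s_j y)` -/
noncomputable def quT : List ℝ → ℝ⟦X⟧
  | [] => 0
  | a :: as => ab (-a) * quT as + C a * (as.map kc).prod * ab (-a)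

lemma S_quT (as : List ℝ) : S (quT as) = quC as * Ex (-as.sum) := by
  induction as with
  | nil => rw [quT, quC, map_zero, zero_mul]
  | cons a as ih =>
    rw [quT, quC, map_add, map_mul, map_mul, map_mul, S_ab, S_C, S_prod_kc, ih, List.sum_cons,
      neg_add, Ex_add]
    ring

end Pool.Agent.Lib_helper35.SRC
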