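import Pool.Agent.Lib_helper35.SRC.StarNum0

set_option autoImplicit false

/-! # Numeric inequality (a2) for the star lemma (MP_80a94d) -/

namespace Pool.Agent.Lib_helper35.SRC

theorem num_a2' (rho w eta : ℝ) (m : ℕ) (h0 : 0 ≤ rho) (h1 : rho ≤ w) (hw : 0 < w)
    (hc : (w ≤ 1 / 8 ∧ eta = 1) ∨ (w ≤ 15 / 224 ∧ 14 / 15 ≤ eta ∧ eta ≤ 1))
    (a s Y Z : ℝ) (ha : a = 1 / 2 - w) (hs' : s = rho + 1 - w)
    (hY : Y = ((m : ℝ) + 2) * a * ((m : ℝ) + 1 + a) ^ m)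
    (hZ : Z = a * ((m : ℝ) + 2 + a) ^ (m + 1)) :
    rho * (rho + 2) * ((m : ℝ) + 2 - rho) ^ (m + 1) ≤ eta * (s ^ 2 * (Z + Y / 2)) := by
  have hm0 : (0 : ℝ) ≤ (m : ℝ) := Nat.cast_nonneg m
  have hw8 : w ≤ 1 / 8 := by
    rcases hc with h | h
    · exact h.1
    · linarith [h.1]
  have ha8 : 3 / 8 ≤ a := by linarith
  have hZ1 : a * ((m : ℝ) + 2) ^ (m + 1) ≤ Z + Y / 2 := by
    have g1 : a * ((m : ℝ) + 2) ^ (m + 1) ≤ Z := by
      rw [hZ]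
      apply mul_le_mul_of_nonneg_left _ (by linarith)
      exact pow_le_pow_left₀ (by linarith) (by linarith) _
    have g2 : 0 ≤ Y := by
      rw [hY]
      positivity
    linarith
  have hP : ((m : ℝ) + 2 - rho) ^ (m + 1) ≤ ((m : ℝ) + 2) ^ (m + 1) :=
    pow_le_pow_left₀ (by linarith) (by linarith) _
  have hP0 : 0 ≤ ((m : ℝ) + 2) ^ (m + 1) := by positivity
  have heta : 0 ≤ eta := by
    rcases hc with h | h
    · rw [h.2]; norm_num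
    · linarith [h.2.1]
  have hkey : w * (w + 2) ≤ eta * ((1 - w) ^ 2 * (1 / 2 - w)) := by
    rcases hc with ⟨c1, c2⟩ | ⟨c1, c2, c3⟩
    · rw [c2]
      nlinarith [mul_nonneg hw.le (sub_nonneg.2 c1), mul_nonneg hw.le (mul_nonneg hw.le hw.le),
        mul_nonneg (mul_nonneg hw.le hw.le) (sub_nonneg.2 c1)]
    · have g1 : 14 / 15 * ((1 - w) ^ 2 * (1 / 2 - w)) ≤ eta * ((1 - w) ^ 2 * (1 / 2 - w)) :=
        mul_le_mul_of_nonneg_right c2 (mul_nonneg (sq_nonneg _) (by linarith))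
      refine le_trans ?_ g1
      nlinarith [mul_nonneg hw.le (sub_nonneg.2 c1), mul_nonneg hw.le (mul_nonneg hw.le hw.le),
        mul_nonneg (mul_nonneg hw.le hw.le) (sub_nonneg.2 c1)]
  have h3 : rho * (rho + 2) ≤ w * (w + 2) := by nlinarith
  have h4 : rho * (rho + 2) * ((m : ℝ) + 2 - rho) ^ (m + 1)
      ≤ w * (w + 2) * ((m : ℝ) + 2) ^ (m + 1) :=
    mul_le_mul h3 hP (pow_nonneg (by linarith) _) (by nlinarith)
  have h5 : w * (w + 2) * ((m : ℝ) + 2) ^ (m + 1)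
      ≤ eta * ((1 - w) ^ 2 * (1 / 2 - w)) * ((m : ℝ) + 2) ^ (m + 1) :=
    mul_le_mul_of_nonneg_right hkey hP0
  have h6 : (1 - w) ^ 2 ≤ s ^ 2 := by
    apply pow_le_pow_left₀ (by linarith)
    linarith
  have h7 : (1 - w) ^ 2 * (a * ((m : ℝ) + 2) ^ (m + 1)) ≤ s ^ 2 * (Z + Y / 2) :=
    mul_le_mul h6 hZ1 (mul_nonneg (by linarith) hP0) (sq_nonneg _)
  have h8 := mul_le_mul_of_nonneg_left h7 heta
  have h9 : eta * ((1 - w) ^ 2 * (1 / 2 - w)) * ((m : ℝ) + 2) ^ (m + 1)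
      = eta * ((1 - w) ^ 2 * (a * ((m : ℝ) + 2) ^ (m + 1))) := by
    rw [ha]; ring
  linarith

end Pool.Agent.Lib_helper35.SRC
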