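import Pool.Agent.Lib_helper35.SRC.StarNum0

set_option autoImplicit false

/-! # Numeric inequality (b) for the star lemma (MP_80a94d) -/

namespace Pool.Agent.Lib_helper35.SRC

theorem num_b' (rho w eta : ℝ) (m : ℕ) (h1 : 1 ≤ rho) (h2 : rho ≤ 2) (_hw : 0 ≤ w)
    (hw1 : w ≤ 15 / 224) (he : 14 / 15 ≤ eta) (_he1 : eta ≤ 1)
    (a s Y Z : ℝ) (ha : a = 1 / 2 - w) (hs' : s = rho + 1 - w)
    (hY : Y = ((m : ℝ) + 2) * a * ((m : ℝ) + 1 + a) ^ m)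
    (hZ : Z = a * ((m : ℝ) + 2 + a) ^ (m + 1)) :
    rho * ((m : ℝ) + 2 - rho) ^ (m + 1) + (rho - 1) * ((m : ℝ) + 2) * ((m : ℝ) + 2 - rho) ^ m
      + (rho + 1) * rho * ((m : ℝ) + 2 - rho) ^ (m + 1)
      ≤ eta * (s * (Z - Y / 2) + s ^ 2 * Y) := by
  rw [M_eq eta s a m Y Z hY hZ]
  have hm0 : (0 : ℝ) ≤ (m : ℝ) := Nat.cast_nonneg m
  have e1 : (m : ℝ) + 2 + a = ((m : ℝ) + 2 - rho) + (s - 1 / 2) := by rw [ha, hs']; ring
  have hs1 : 3 / 2 ≤ s := by linarith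
  have ha8 : 97 / 224 ≤ a := by linarith
  have hE0 : 0 ≤ eta * s * a := by positivity
  have hr0 : 0 ≤ (m : ℝ) + 2 - rho := by linarith
  have hA : ((m : ℝ) + 2 - rho) ^ m * (((m : ℝ) + 2 - rho) + ((m : ℝ) + 1) * (s - 1 / 2)
      + (m : ℝ) / 2 * (s - 1 / 2) ^ 2) ≤ ((m : ℝ) + 2 + a) ^ (m + 1) := by
    rw [e1]
    exact bern2' _ _ hr0 (by linarith) m (by linarith)
  have hB : ((m : ℝ) + 2 - rho) ^ m ≤ ((m : ℝ) + 1 + a) ^ m := by
    apply pow_le_pow_left₀ hr0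
    linarith
  have hE : (97 / 240 : ℝ) * (rho + 209 / 224) ≤ eta * s * a := by
    have g1 : 14 / 15 * (rho + 209 / 224) ≤ eta * s :=
      mul_le_mul he (by linarith) (by linarith) (by linarith)
    have g2 : 14 / 15 * (rho + 209 / 224) * (97 / 224) ≤ eta * s * a :=
      mul_le_mul g1 (by linarith) (by norm_num) (by positivity)
    linarith
  have hy0 : 0 ≤ s - 1 / 2 := by linarith
  -- the two scalar inequalities
  have k0 : -rho ^ 3 + 6 * rho - 2 ≤ eta * s * a * (2 - rho + 3 * (s - 1 / 2)) := by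
    have g3 : (97 / 240 : ℝ) * (rho + 209 / 224) * (2 - rho + 3 * (rho + 97 / 224))
        ≤ eta * s * a * (2 - rho + 3 * (s - 1 / 2)) :=
      mul_le_mul hE (by linarith) (by linarith) hE0
    refine le_trans ?_ g3
    nlinarith [mul_nonneg (sub_nonneg.2 h1) (sub_nonneg.2 h2),
      mul_nonneg (sub_nonneg.2 h1) (sq_nonneg (rho - 1)),
      mul_nonneg (sub_nonneg.2 h1) (sq_nonneg (rho - 3 / 2))]
  have k1 : rho ^ 2 + 3 * rho - 1
      ≤ eta * s * a * (1 + 2 * (s - 1 / 2) + (s - 1 / 2) ^ 2 / 2) := by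
    have g4 : (rho + 97 / 224) ^ 2 ≤ (s - 1 / 2) ^ 2 := by
      apply pow_le_pow_left₀ (by linarith)
      linarith
    have g3 : (97 / 240 : ℝ) * (rho + 209 / 224)
        * (1 + 2 * (rho + 97 / 224) + (rho + 97 / 224) ^ 2 / 2)
        ≤ eta * s * a * (1 + 2 * (s - 1 / 2) + (s - 1 / 2) ^ 2 / 2) :=
      mul_le_mul hE (by linarith) (by positivity) hE0
    refine le_trans ?_ g3
    nlinarith [mul_nonneg (sub_nonneg.2 h1) (sub_nonneg.2 h2),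
      mul_nonneg (sub_nonneg.2 h1) (sq_nonneg (rho - 1)),
      mul_nonneg (sub_nonneg.2 h1) (sq_nonneg (rho - 3 / 2))]
  have hrm : 0 ≤ ((m : ℝ) + 2 - rho) ^ m := by positivity
  have h3 : ((m : ℝ) + 2 - rho) ^ m * (((m : ℝ) + 2 - rho) + ((m : ℝ) + 1) * (s - 1 / 2)
      + (m : ℝ) / 2 * (s - 1 / 2) ^ 2)
      + (s - 1 / 2) * (((m : ℝ) + 2) * ((m : ℝ) + 2 - rho) ^ m)
      ≤ ((m : ℝ) + 2 + a) ^ (m + 1) + (s - 1 / 2) * (((m : ℝ) + 2) * ((m : ℝ) + 1 + a) ^ m) := by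
    have : (s - 1 / 2) * (((m : ℝ) + 2) * ((m : ℝ) + 2 - rho) ^ m)
        ≤ (s - 1 / 2) * (((m : ℝ) + 2) * ((m : ℝ) + 1 + a) ^ m) := by
      apply mul_le_mul_of_nonneg_left _ hy0
      exact mul_le_mul_of_nonneg_left hB (by positivity)
    linarith
  refine le_trans ?_ (mul_le_mul_of_nonneg_left h3 hE0)
  generalize eta * s * a = E at *
  generalize s - 1 / 2 = y at *
  rw [pow_succ ((m : ℝ) + 2 - rho) m]
  generalize ((m : ℝ) + 2 - rho) ^ m = R at *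
  have h5 : 0 ≤ R * ((m : ℝ) * (E * (1 + 2 * y + y ^ 2 / 2) - (rho ^ 2 + 3 * rho - 1))
      + (E * (2 - rho + 3 * y) - (-rho ^ 3 + 6 * rho - 2))) := by
    apply mul_nonneg hrm
    apply add_nonneg
    · exact mul_nonneg hm0 (by linarith)
    · linarith
  have h4 : E * (R * (((m : ℝ) + 2 - rho) + ((m : ℝ) + 1) * y + (m : ℝ) / 2 * y ^ 2)
      + y * (((m : ℝ) + 2) * R))
      - (rho * (R * ((m : ℝ) + 2 - rho)) + (rho - 1) * ((m : ℝ) + 2) * R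
        + (rho + 1) * rho * (R * ((m : ℝ) + 2 - rho)))
      = R * ((m : ℝ) * (E * (1 + 2 * y + y ^ 2 / 2) - (rho ^ 2 + 3 * rho - 1))
      + (E * (2 - rho + 3 * y) - (-rho ^ 3 + 6 * rho - 2))) := by
    ring
  linarith

end Pool.Agent.Lib_helper35.SRC
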