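import Pool.Agent.Lib_helper35.SRC.StarNum0

set_option autoImplicit false

/-! # Numeric inequality (c) for the star lemma (MP_80a94d) -/

namespace Pool.Agent.Lib_helper35.SRC

theorem num_c' (rho w eta : ℝ) (m : ℕ) (h1 : 2 ≤ rho) (h2 : rho < (m : ℝ) + 2) (_hw : 0 ≤ w)
    (hw1 : w ≤ 1 / 56) (he : 14 / 15 ≤ eta) (_he1 : eta ≤ 1)
    (a s Y Z : ℝ) (ha : a = 1 / 2 - w) (hs' : s = rho + 1 - w)
    (hY : Y = ((m : ℝ) + 2) * a * ((m : ℝ) + 1 + a) ^ m)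
    (hZ : Z = a * ((m : ℝ) + 2 + a) ^ (m + 1)) :
    ((m : ℝ) + 2) ^ (m + 1) + (rho ^ 2 + 2 * rho - 1) * ((m : ℝ) + 2 - rho) ^ (m + 1)
      ≤ eta * (s * (Z - Y / 2) + s ^ 2 * Y) := by
  rw [M_eq eta s a m Y Z hY hZ]
  have hm0 : (0 : ℝ) ≤ (m : ℝ) := Nat.cast_nonneg m
  have hs1 : 5 / 2 ≤ s := by linarith
  have ha8 : 27 / 56 ≤ a := by linarith
  have hr0 : 0 ≤ (m : ℝ) + 2 - rho := by linarith
  have hE : (67 / 50 : ℝ) ≤ eta * s * a := by
    have g1 : 14 / 15 * (167 / 56) ≤ eta * s :=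
      mul_le_mul he (by linarith) (by norm_num) (by linarith)
    have g2 : 14 / 15 * (167 / 56) * (27 / 56) ≤ eta * s * a :=
      mul_le_mul g1 (by linarith) (by norm_num) (by positivity)
    linarith
  have hy : rho + 27 / 56 ≤ s - 1 / 2 := by linarith
  have hA : ((m : ℝ) + 2) ^ (m + 1) ≤ ((m : ℝ) + 2 + a) ^ (m + 1) :=
    pow_le_pow_left₀ (by linarith) (by linarith) _
  have hB : ((m : ℝ) + 2 - rho) ^ (m + 1) * (s - 1 / 2)
      ≤ ((m : ℝ) + 2) * ((m : ℝ) + 1 + a) ^ m := by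
    have g := bern1c ((m : ℝ) + 2 - rho) (s - 3 / 2) hr0 (by linarith) m (by linarith)
    have e1 : (m : ℝ) + 1 + a = ((m : ℝ) + 2 - rho) + (s - 3 / 2) := by rw [ha, hs']; ring
    have e2 : s - 1 / 2 = 1 + (s - 3 / 2) := by ring
    rw [e1, e2]
    exact g
  have hP0 : 0 ≤ ((m : ℝ) + 2) ^ (m + 1) := by positivity
  have hR0 : 0 ≤ ((m : ℝ) + 2 - rho) ^ (m + 1) := by positivity
  have hy2 : (rho + 27 / 56) ^ 2 ≤ (s - 1 / 2) ^ 2 := by
    apply pow_le_pow_left₀ (by linarith)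
    exact hy
  have hk : rho ^ 2 + 2 * rho - 1 ≤ eta * s * a * (s - 1 / 2) ^ 2 := by
    have g3 : (67 / 50 : ℝ) * (rho + 27 / 56) ^ 2 ≤ eta * s * a * (s - 1 / 2) ^ 2 :=
      mul_le_mul hE hy2 (sq_nonneg _) (by linarith)
    refine le_trans ?_ g3
    nlinarith [sq_nonneg (rho - 1)]
  have hy0 : 0 ≤ s - 1 / 2 := by linarith
  generalize eta * s * a = E at *
  generalize s - 1 / 2 = y at *
  generalize ((m : ℝ) + 2 + a) ^ (m + 1) = A at *
  generalize ((m : ℝ) + 2) * ((m : ℝ) + 1 + a) ^ m = B at *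
  generalize ((m : ℝ) + 2 - rho) ^ (m + 1) = R at *
  generalize ((m : ℝ) + 2) ^ (m + 1) = P at *
  have t1 : P ≤ E * A := by nlinarith
  have t2 : (rho ^ 2 + 2 * rho - 1) * R ≤ E * (y * B) := by
    have u1 : y * (R * y) ≤ y * B := mul_le_mul_of_nonneg_left hB hy0
    have u2 : E * (y * (R * y)) ≤ E * (y * B) := mul_le_mul_of_nonneg_left u1 (by linarith)
    have u3 : (rho ^ 2 + 2 * rho - 1) * R ≤ E * y ^ 2 * R := mul_le_mul_of_nonneg_right hk hR0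
    have u4 : E * y ^ 2 * R = E * (y * (R * y)) := by ring
    linarith
  linarith

end Pool.Agent.Lib_helper35.SRC
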