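import Pool.Agent.Lib_helper35.SRC.StarNumA1
import Pool.Agent.Lib_helper35.SRC.StarNumA2
import Pool.Agent.Lib_helper35.SRC.StarNumB
import Pool.Agent.Lib_helper35.SRC.StarNumC

set_option autoImplicit false

/-! # Numeric inequalities for the star lemma (MP_80a94d) -/

namespace Pool.Agent.Lib_helper35.SRC

/-! ## the same with everything written out -/

theorem num_a1 (rho w eta : ℝ) (m : ℕ) (h0 : 0 ≤ rho) (h1 : rho ≤ 1) (hw : 0 ≤ w)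
    (hs : 1 ≤ rho + 1 - w)
    (hc : (w ≤ 1 / 8 ∧ eta = 1 ∧ rho ≤ 5 / 8) ∨ (w ≤ 15 / 224 ∧ 14 / 15 ≤ eta ∧ eta ≤ 1)) :
    rho * (rho + 2) * ((m : ℝ) + 2 - rho) ^ (m + 1)
      ≤ eta * ((rho + 1 - w) * ((1 / 2 - w) * ((m : ℝ) + 2 + (1 / 2 - w)) ^ (m + 1)
          - ((m : ℝ) + 2) * (1 / 2 - w) * ((m : ℝ) + 1 + (1 / 2 - w)) ^ m / 2)
        + (rho + 1 - w) ^ 2 * (((m : ℝ) + 2) * (1 / 2 - w) * ((m : ℝ) + 1 + (1 / 2 - w)) ^ m)) :=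
  num_a1' rho w eta m h0 h1 hw hs hc _ _ _ _ rfl rfl rfl rfl

theorem num_a2 (rho w eta : ℝ) (m : ℕ) (h0 : 0 ≤ rho) (h1 : rho ≤ w) (hw : 0 < w)
    (hc : (w ≤ 1 / 8 ∧ eta = 1) ∨ (w ≤ 15 / 224 ∧ 14 / 15 ≤ eta ∧ eta ≤ 1)) :
    rho * (rho + 2) * ((m : ℝ) + 2 - rho) ^ (m + 1)
      ≤ eta * ((rho + 1 - w) ^ 2 * ((1 / 2 - w) * ((m : ℝ) + 2 + (1 / 2 - w)) ^ (m + 1)
          + ((m : ℝ) + 2) * (1 / 2 - w) * ((m : ℝ) + 1 + (1 / 2 - w)) ^ m / 2)) :=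
  num_a2' rho w eta m h0 h1 hw hc _ _ _ _ rfl rfl rfl rfl

theorem num_b (rho w eta : ℝ) (m : ℕ) (h1 : 1 ≤ rho) (h2 : rho ≤ 2) (hw : 0 ≤ w)
    (hw1 : w ≤ 15 / 224) (he : 14 / 15 ≤ eta) (he1 : eta ≤ 1) :
    rho * ((m : ℝ) + 2 - rho) ^ (m + 1) + (rho - 1) * ((m : ℝ) + 2) * ((m : ℝ) + 2 - rho) ^ m
      + (rho + 1) * rho * ((m : ℝ) + 2 - rho) ^ (m + 1)
      ≤ eta * ((rho + 1 - w) * ((1 / 2 - w) * ((m : ℝ) + 2 + (1 / 2 - w)) ^ (m + 1)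
          - ((m : ℝ) + 2) * (1 / 2 - w) * ((m : ℝ) + 1 + (1 / 2 - w)) ^ m / 2)
        + (rho + 1 - w) ^ 2 * (((m : ℝ) + 2) * (1 / 2 - w) * ((m : ℝ) + 1 + (1 / 2 - w)) ^ m)) :=
  num_b' rho w eta m h1 h2 hw hw1 he he1 _ _ _ _ rfl rfl rfl rfl

theorem num_c (rho w eta : ℝ) (m : ℕ) (h1 : 2 ≤ rho) (h2 : rho < (m : ℝ) + 2) (hw : 0 ≤ w)
    (hw1 : w ≤ 1 / 56) (he : 14 / 15 ≤ eta) (he1 : eta ≤ 1) :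
    ((m : ℝ) + 2) ^ (m + 1) + (rho ^ 2 + 2 * rho - 1) * ((m : ℝ) + 2 - rho) ^ (m + 1)
      ≤ eta * ((rho + 1 - w) * ((1 / 2 - w) * ((m : ℝ) + 2 + (1 / 2 - w)) ^ (m + 1)
          - ((m : ℝ) + 2) * (1 / 2 - w) * ((m : ℝ) + 1 + (1 / 2 - w)) ^ m / 2)
        + (rho + 1 - w) ^ 2 * (((m : ℝ) + 2) * (1 / 2 - w) * ((m : ℝ) + 1 + (1 / 2 - w)) ^ m)) :=
  num_c' rho w eta m h1 h2 hw hw1 he he1 _ _ _ _ rfl rfl rfl rfl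

end Pool.Agent.Lib_helper35.SRC
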