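import Mathlib

set_option autoImplicit false

/-! # Bernoulli inequalities for the star lemma (MP_80a94d) -/

namespace Pool.Agent.Lib_helper35.SRC

/-- first order Bernoulli: `x^m (x + (m+1) y) ≤ (x+y)^(m+1)` -/
theorem bern1 (x y : ℝ) (hx : 0 ≤ x) (hy : 0 ≤ y) (m : ℕ) :
    x ^ m * (x + ((m : ℝ) + 1) * y) ≤ (x + y) ^ (m + 1) := by
  induction m with
  | zero => simp
  | succ m ih =>
    have h1 : (x + y) ^ (m + 1 + 1) = (x + y) ^ (m + 1) * (x + y) := pow_succ _ _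
    rw [h1]
    have h2 : x ^ m * (x + ((m : ℝ) + 1) * y) * (x + y) ≤ (x + y) ^ (m + 1) * (x + y) :=
      mul_le_mul_of_nonneg_right ih (by positivity)
    refine le_trans ?_ h2
    have h3 : 0 ≤ x ^ m := by positivity
    push_cast
    have h4 : x ^ m * (x + ((m : ℝ) + 1) * y) * (x + y)
        - x ^ (m + 1) * (x + ((m : ℝ) + 1 + 1) * y) = x ^ m * (((m : ℝ) + 1) * y ^ 2) := by
      ring
    have h5 : 0 ≤ x ^ m * (((m : ℝ) + 1) * y ^ 2) := by positivity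
    linarith

/-- second order Bernoulli: `x^m (x^2 + (m+2) x y + (m+2)(m+1)/2 y^2) ≤ (x+y)^(m+2)` -/
theorem bern2 (x y : ℝ) (hx : 0 ≤ x) (hy : 0 ≤ y) (m : ℕ) :
    x ^ m * (x ^ 2 + ((m : ℝ) + 2) * x * y + ((m : ℝ) + 2) * ((m : ℝ) + 1) / 2 * y ^ 2)
      ≤ (x + y) ^ (m + 2) := by
  induction m with
  | zero => simp; nlinarith
  | succ m ih =>
    have h1 : (x + y) ^ (m + 1 + 2) = (x + y) ^ (m + 2) * (x + y) := by ring
    rw [h1]
    have h2 := mul_le_mul_of_nonneg_right ih (show 0 ≤ x + y by positivity)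
    refine le_trans ?_ h2
    push_cast
    have h4 : x ^ m * (x ^ 2 + ((m : ℝ) + 2) * x * y + ((m : ℝ) + 2) * ((m : ℝ) + 1) / 2 * y ^ 2)
        * (x + y) - x ^ (m + 1) * (x ^ 2 + ((m : ℝ) + 1 + 2) * x * y
          + ((m : ℝ) + 1 + 2) * ((m : ℝ) + 1 + 1) / 2 * y ^ 2)
        = x ^ m * (((m : ℝ) + 2) * ((m : ℝ) + 1) / 2 * y ^ 3) := by
      ring
    have h5 : 0 ≤ x ^ m * (((m : ℝ) + 2) * ((m : ℝ) + 1) / 2 * y ^ 3) := by positivity
    linarith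

theorem bern2' (r y : ℝ) (hr : 0 ≤ r) (hy : 0 ≤ y) (m : ℕ) (hm : r ≤ (m : ℝ) + 1) :
    r ^ m * (r + ((m : ℝ) + 1) * y + (m : ℝ) / 2 * y ^ 2) ≤ (r + y) ^ (m + 1) := by
  rcases m with _ | m
  · simp
  · refine le_trans ?_ (bern2 r y hr hy m)
    push_cast at hm ⊢
    have h4 : r ^ m * (r ^ 2 + ((m : ℝ) + 2) * r * y + ((m : ℝ) + 2) * ((m : ℝ) + 1) / 2 * y ^ 2)
        - r ^ (m + 1) * (r + ((m : ℝ) + 1 + 1) * y + ((m : ℝ) + 1) / 2 * y ^ 2)
        = r ^ m * ((((m : ℝ) + 1 + 1) - r) * (((m : ℝ) + 1) / 2 * y ^ 2)) := by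
      ring
    have h5 : 0 ≤ r ^ m * ((((m : ℝ) + 1 + 1) - r) * (((m : ℝ) + 1) / 2 * y ^ 2)) := by
      have : 0 ≤ ((m : ℝ) + 1 + 1) - r := by linarith
      positivity
    linarith

theorem bern1c (r z : ℝ) (hr : 0 ≤ r) (hz : 0 ≤ z) (m : ℕ) (hm : r ≤ (m : ℝ)) :
    r ^ (m + 1) * (1 + z) ≤ ((m : ℝ) + 2) * (r + z) ^ m := by
  rcases m with _ | m
  · have : r = 0 := by
      apply le_antisymm _ hr
      simpa using hm
    subst this
    simp
  · have h1 := bern1 r z hr hz m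
    push_cast at hm ⊢
    have h2 : ((m : ℝ) + 1 + 2) * (r ^ m * (r + ((m : ℝ) + 1) * z))
        ≤ ((m : ℝ) + 1 + 2) * (r + z) ^ (m + 1) := mul_le_mul_of_nonneg_left h1 (by positivity)
    refine le_trans ?_ h2
    have h3 : 0 ≤ r ^ m := by positivity
    have h4 : ((m : ℝ) + 1 + 2) * (r ^ m * (r + ((m : ℝ) + 1) * z))
        - r ^ (m + 1 + 1) * (1 + z)
        = r ^ m * (r * ((m : ℝ) + 1 + 2 - r) + (((m : ℝ) + 1 + 2) * ((m : ℝ) + 1) - r * r) * z) := by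
      ring
    have h5 : 0 ≤ r * ((m : ℝ) + 1 + 2 - r) := mul_nonneg hr (by linarith)
    have h6 : 0 ≤ (((m : ℝ) + 1 + 2) * ((m : ℝ) + 1) - r * r) * z := by
      apply mul_nonneg _ hz
      have h7 : r * r ≤ ((m : ℝ) + 1) * ((m : ℝ) + 1) := mul_le_mul hm hm hr (by positivity)
      nlinarith
    have h8 := mul_nonneg h3 (add_nonneg h5 h6)
    linarith

/-- `(1 - u)^m ≥ 1 - m u` in the form used -/
theorem bern_neg (r z : ℝ) (hr : 0 < r) (hz0 : 0 ≤ z) (hz : z ≤ 1 / 2) (m : ℕ)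
    (hm : (m : ℝ) ≤ r) (hr1 : 1 ≤ r) : (1 - z) * r ^ m ≤ (r - z) ^ m := by
  have h1 : -2 ≤ -(z / r) := by
    have : z / r ≤ 1 := by
      rw [div_le_one hr]
      linarith
    linarith
  have h2 := one_add_mul_le_pow h1 m
  have h3 : (r - z) ^ m = r ^ m * (1 + -(z / r)) ^ m := by
    rw [← mul_pow]
    congr 1
    field_simp
    ring
  rw [h3]
  have h4 : 1 - z ≤ 1 + (m : ℝ) * -(z / r) := by
    have : (m : ℝ) * (z / r) ≤ z := by
      rw [mul_div_assoc', div_le_iff₀ hr]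
      nlinarith
    linarith
  have h5 : 0 ≤ r ^ m := by positivity
  nlinarith [mul_le_mul_of_nonneg_left (le_trans h4 h2) h5]

theorem M_eq (eta s a : ℝ) (m : ℕ) (Y Z : ℝ) (hY : Y = ((m : ℝ) + 2) * a * ((m : ℝ) + 1 + a) ^ m)
    (hZ : Z = a * ((m : ℝ) + 2 + a) ^ (m + 1)) :
    eta * (s * (Z - Y / 2) + s ^ 2 * Y)
      = (eta * s * a) * (((m : ℝ) + 2 + a) ^ (m + 1)
        + (s - 1 / 2) * (((m : ℝ) + 2) * ((m : ℝ) + 1 + a) ^ m)) := by
  rw [hY, hZ]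
  ring

theorem key_a (rho E y c r A B : ℝ) (m : ℕ) (hr : r = (m : ℝ) + 2 - rho) (hr0 : 0 ≤ r)
    (hE : 0 ≤ E) (hy : 0 ≤ y) (hA : r ^ m * (r + ((m : ℝ) + 1) * y) ≤ A) (hB : c * r ^ m ≤ B)
    (h1 : rho * (rho + 2) ≤ E * (1 + y + y * c))
    (h2 : rho * (rho + 2) * (2 - rho) ≤ E * (2 - rho + y + 2 * (y * c))) :
    rho * (rho + 2) * r ^ (m + 1) ≤ E * (A + y * (((m : ℝ) + 2) * B)) := by
  have hrm : 0 ≤ r ^ m := by positivity
  have h3 : r ^ m * (r + ((m : ℝ) + 1) * y) + y * (((m : ℝ) + 2) * (c * r ^ m))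
      ≤ A + y * (((m : ℝ) + 2) * B) := by
    have : y * (((m : ℝ) + 2) * (c * r ^ m)) ≤ y * (((m : ℝ) + 2) * B) := by
      apply mul_le_mul_of_nonneg_left _ hy
      exact mul_le_mul_of_nonneg_left hB (by positivity)
    linarith
  refine le_trans ?_ (mul_le_mul_of_nonneg_left h3 hE)
  have h4 : E * (r ^ m * (r + ((m : ℝ) + 1) * y) + y * (((m : ℝ) + 2) * (c * r ^ m)))
      - rho * (rho + 2) * r ^ (m + 1)
      = r ^ m * ((m : ℝ) * (E * (1 + y + y * c) - rho * (rho + 2))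
        + (E * (2 - rho + y + 2 * (y * c)) - rho * (rho + 2) * (2 - rho))) := by
    rw [pow_succ r m]
    generalize r ^ m = R
    subst hr
    ring
  have h5 : 0 ≤ r ^ m * ((m : ℝ) * (E * (1 + y + y * c) - rho * (rho + 2))
        + (E * (2 - rho + y + 2 * (y * c)) - rho * (rho + 2) * (2 - rho))) := by
    apply mul_nonneg hrm
    apply add_nonneg
    · exact mul_nonneg (Nat.cast_nonneg m) (by linarith)
    · linarith
  linarith

end Pool.Agent.Lib_helper35.SRC
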