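import Pool.Agent.Lib_helper35.SRC.StarNum0

set_option autoImplicit false

/-! # Numeric inequality (a1) for the star lemma (MP_80a94d) -/

namespace Pool.Agent.Lib_helper35.SRC

private lemma p0 (rho : ℝ) (h0 : 0 ≤ rho) (h1 : rho ≤ 5 / 8) : rho * (rho + 2) ≤ 9 / 16 * 3 := by
  nlinarith

private lemma p1 (rho : ℝ) (h0 : 0 ≤ rho) (h1 : rho ≤ 1) :
    rho * (rho + 2) ≤ (97 / 240 : ℝ) * (rho + 209 / 224) * (2 * (rho + 209 / 224)) := by
  nlinarith [mul_nonneg h0 (sub_nonneg.2 h1)]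

private lemma p2 (rho : ℝ) (h0 : 0 ≤ rho) (c3 : rho ≤ 5 / 8) :
    rho * (rho + 2) * (2 - rho) ≤ (9 / 16 : ℝ) * (5 - rho) := by
  nlinarith [mul_nonneg h0 (sub_nonneg.2 c3), mul_nonneg h0 (mul_nonneg h0 h0)]

private lemma p3 (rho : ℝ) (h0 : 0 ≤ rho) (h1 : rho ≤ 1) :
    rho * (rho + 2) * (2 - rho)
      ≤ (97 / 240 : ℝ) * (rho + 209 / 224) * (2 * rho + 739 / 224) := by
  nlinarith [mul_nonneg h0 (sub_nonneg.2 h1), mul_nonneg h0 (mul_nonneg h0 h0)]

private lemma p4 (rho : ℝ) (h0 : 0 ≤ rho) (c3 : rho ≤ 5 / 8) :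
    rho * (rho + 2)
      ≤ (3 / 8 : ℝ) * (rho + 7 / 8) * (1 + (rho + 3 / 8) + (rho + 3 / 8) * (rho + 3 / 8)) := by
  nlinarith [mul_nonneg h0 (sub_nonneg.2 c3), mul_nonneg h0 (mul_nonneg h0 h0),
    mul_nonneg h0 (sq_nonneg (rho - 5 / 8)), mul_nonneg (sub_nonneg.2 c3) (sq_nonneg (rho - 5 / 8))]

private lemma p5 (rho : ℝ) (h0 : 0 ≤ rho) (h6 : rho ≤ 127 / 224) :
    rho * (rho + 2) ≤ (97 / 240 : ℝ) * (rho + 209 / 224)
            * (1 + (rho + 97 / 224) + (rho + 97 / 224) * (rho + 97 / 224)) := by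
  nlinarith [mul_nonneg h0 (sub_nonneg.2 h6), mul_nonneg h0 (mul_nonneg h0 h0),
    mul_nonneg h0 (sq_nonneg (rho - 5 / 8)), mul_nonneg (sub_nonneg.2 h6) (sq_nonneg (rho - 5 / 8))]

private lemma p6 (rho : ℝ) (h0 : 0 ≤ rho) (c3 : rho ≤ 5 / 8) :
    rho * (rho + 2) * (2 - rho) ≤ (3 / 8 : ℝ) * (rho + 7 / 8)
            * (2 - rho + (rho + 3 / 8) + 2 * ((rho + 3 / 8) * (rho + 3 / 8))) := by
  nlinarith [mul_nonneg h0 (sub_nonneg.2 c3), mul_nonneg h0 (mul_nonneg h0 h0),
    mul_nonneg h0 (sq_nonneg (rho - 1 / 2)), mul_nonneg (sub_nonneg.2 c3) (sq_nonneg (rho - 1 / 2))]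

private lemma p7 (rho : ℝ) (h0 : 0 ≤ rho) (h6 : rho ≤ 127 / 224) :
    rho * (rho + 2) * (2 - rho) ≤ (97 / 240 : ℝ) * (rho + 209 / 224)
            * (2 - rho + (rho + 97 / 224) + 2 * ((rho + 97 / 224) * (rho + 97 / 224))) := by
  nlinarith [mul_nonneg h0 (sub_nonneg.2 h6), mul_nonneg h0 (mul_nonneg h0 h0),
    mul_nonneg h0 (sq_nonneg (rho - 1 / 2)), mul_nonneg (sub_nonneg.2 h6) (sq_nonneg (rho - 1 / 2))]

theorem num_a1' (rho w eta : ℝ) (m : ℕ) (h0 : 0 ≤ rho) (h1 : rho ≤ 1) (hw : 0 ≤ w)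
    (hs : 1 ≤ rho + 1 - w)
    (hc : (w ≤ 1 / 8 ∧ eta = 1 ∧ rho ≤ 5 / 8) ∨ (w ≤ 15 / 224 ∧ 14 / 15 ≤ eta ∧ eta ≤ 1))
    (a s Y Z : ℝ) (ha : a = 1 / 2 - w) (hs' : s = rho + 1 - w)
    (hY : Y = ((m : ℝ) + 2) * a * ((m : ℝ) + 1 + a) ^ m)
    (hZ : Z = a * ((m : ℝ) + 2 + a) ^ (m + 1)) :
    rho * (rho + 2) * ((m : ℝ) + 2 - rho) ^ (m + 1) ≤ eta * (s * (Z - Y / 2) + s ^ 2 * Y) := by
  rw [M_eq eta s a m Y Z hY hZ]
  have hm0 : (0 : ℝ) ≤ (m : ℝ) := Nat.cast_nonneg m
  have hr1 : 1 ≤ (m : ℝ) + 2 - rho := by linarith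
  have e1 : (m : ℝ) + 2 + a = ((m : ℝ) + 2 - rho) + (s - 1 / 2) := by rw [ha, hs']; ring
  have hs1 : 1 ≤ s := by linarith
  have hA : ((m : ℝ) + 2 - rho) ^ m * (((m : ℝ) + 2 - rho) + ((m : ℝ) + 1) * (s - 1 / 2))
      ≤ ((m : ℝ) + 2 + a) ^ (m + 1) := by
    rw [e1]
    exact bern1 _ _ (by linarith) (by linarith) m
  -- bounds for E
  have hw8 : w ≤ 1 / 8 := by
    rcases hc with h | h
    · exact h.1
    · linarith [h.1]
  have heta : 14 / 15 ≤ eta := by
    rcases hc with h | h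
    · rw [h.2.1]; norm_num
    · exact h.2.1
  have ha8 : 3 / 8 ≤ a := by linarith
  have hE0 : 0 ≤ eta * s * a := by positivity
  rcases le_total (3 / 2) s with hs3 | hs3
  · -- large s
    have hB : 1 * ((m : ℝ) + 2 - rho) ^ m ≤ ((m : ℝ) + 1 + a) ^ m := by
      rw [one_mul]
      apply pow_le_pow_left₀ (by linarith)
      linarith
    apply key_a rho (eta * s * a) (s - 1 / 2) 1 _ _ _ m rfl (by linarith) hE0 (by linarith) hA hB
    · rcases hc with ⟨c1, c2, c3⟩ | ⟨c1, c2, c3⟩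
      · have hE : 9 / 16 ≤ eta * s * a := by
          rw [c2]
          have : (3 / 2 : ℝ) * (3 / 8) ≤ s * a := mul_le_mul hs3 ha8 (by norm_num) (by linarith)
          linarith
        have g3 : (9 / 16 : ℝ) * 3 ≤ eta * s * a * (1 + (s - 1 / 2) + (s - 1 / 2) * 1) :=
          mul_le_mul hE (by linarith) (by norm_num) hE0
        exact le_trans (p0 rho h0 c3) g3
      · have hE : (97 / 240 : ℝ) * (rho + 209 / 224) ≤ eta * s * a := by
          have g1 : 14 / 15 * (rho + 209 / 224) ≤ eta * s :=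
            mul_le_mul c2 (by linarith) (by linarith) (by linarith)
          have g2 : 14 / 15 * (rho + 209 / 224) * (97 / 224) ≤ eta * s * a :=
            mul_le_mul g1 (by linarith) (by norm_num) (by positivity)
          linarith
        have g3 : (97 / 240 : ℝ) * (rho + 209 / 224) * (2 * (rho + 209 / 224))
            ≤ eta * s * a * (1 + (s - 1 / 2) + (s - 1 / 2) * 1) :=
          mul_le_mul hE (by linarith) (by linarith) hE0
        exact le_trans (p1 rho h0 h1) g3
    · rcases hc with ⟨c1, c2, c3⟩ | ⟨c1, c2, c3⟩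
      · have hE : 9 / 16 ≤ eta * s * a := by
          rw [c2]
          have : (3 / 2 : ℝ) * (3 / 8) ≤ s * a := mul_le_mul hs3 ha8 (by norm_num) (by linarith)
          linarith
        have g3 : (9 / 16 : ℝ) * (5 - rho)
            ≤ eta * s * a * (2 - rho + (s - 1 / 2) + 2 * ((s - 1 / 2) * 1)) :=
          mul_le_mul hE (by linarith) (by linarith) hE0
        exact le_trans (p2 rho h0 c3) g3
      · have hE : (97 / 240 : ℝ) * (rho + 209 / 224) ≤ eta * s * a := by
          have g1 : 14 / 15 * (rho + 209 / 224) ≤ eta * s :=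
            mul_le_mul c2 (by linarith) (by linarith) (by linarith)
          have g2 : 14 / 15 * (rho + 209 / 224) * (97 / 224) ≤ eta * s * a :=
            mul_le_mul g1 (by linarith) (by norm_num) (by positivity)
          linarith
        have g3 : (97 / 240 : ℝ) * (rho + 209 / 224) * (2 * rho + 739 / 224)
            ≤ eta * s * a * (2 - rho + (s - 1 / 2) + 2 * ((s - 1 / 2) * 1)) :=
          mul_le_mul hE (by linarith) (by linarith) hE0
        exact le_trans (p3 rho h0 h1) g3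
  · -- small s
    have hB : (s - 1 / 2) * ((m : ℝ) + 2 - rho) ^ m ≤ ((m : ℝ) + 1 + a) ^ m := by
      have e2 : (m : ℝ) + 1 + a = ((m : ℝ) + 2 - rho) - (3 / 2 - s) := by rw [ha, hs']; ring
      have e3 : s - 1 / 2 = 1 - (3 / 2 - s) := by ring
      rw [e2, e3]
      exact bern_neg _ _ (by linarith) (by linarith) (by linarith) m (by linarith) hr1
    apply key_a rho (eta * s * a) (s - 1 / 2) (s - 1 / 2) _ _ _ m rfl (by linarith) hE0
      (by linarith) hA hB
    · rcases hc with ⟨c1, c2, c3⟩ | ⟨c1, c2, c3⟩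
      · have hE : (3 / 8 : ℝ) * (rho + 7 / 8) ≤ eta * s * a := by
          rw [c2]
          have : (rho + 7 / 8) * (3 / 8) ≤ s * a :=
            mul_le_mul (by linarith) ha8 (by norm_num) (by linarith)
          linarith
        have g4 : (rho + 3 / 8) * (rho + 3 / 8) ≤ (s - 1 / 2) * (s - 1 / 2) :=
          mul_le_mul (by linarith) (by linarith) (by linarith) (by linarith)
        have g3 : (3 / 8 : ℝ) * (rho + 7 / 8) * (1 + (rho + 3 / 8) + (rho + 3 / 8) * (rho + 3 / 8))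
            ≤ eta * s * a * (1 + (s - 1 / 2) + (s - 1 / 2) * (s - 1 / 2)) :=
          mul_le_mul hE (by linarith) (by positivity) hE0
        exact le_trans (p4 rho h0 c3) g3
      · have hE : (97 / 240 : ℝ) * (rho + 209 / 224) ≤ eta * s * a := by
          have g1 : 14 / 15 * (rho + 209 / 224) ≤ eta * s :=
            mul_le_mul c2 (by linarith) (by linarith) (by linarith)
          have g2 : 14 / 15 * (rho + 209 / 224) * (97 / 224) ≤ eta * s * a :=
            mul_le_mul g1 (by linarith) (by norm_num) (by positivity)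
          linarith
        have g4 : (rho + 97 / 224) * (rho + 97 / 224) ≤ (s - 1 / 2) * (s - 1 / 2) :=
          mul_le_mul (by linarith) (by linarith) (by linarith) (by linarith)
        have g3 : (97 / 240 : ℝ) * (rho + 209 / 224)
            * (1 + (rho + 97 / 224) + (rho + 97 / 224) * (rho + 97 / 224))
            ≤ eta * s * a * (1 + (s - 1 / 2) + (s - 1 / 2) * (s - 1 / 2)) :=
          mul_le_mul hE (by linarith) (by positivity) hE0
        exact le_trans (p5 rho h0 (by linarith)) g3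
    · rcases hc with ⟨c1, c2, c3⟩ | ⟨c1, c2, c3⟩
      · have hE : (3 / 8 : ℝ) * (rho + 7 / 8) ≤ eta * s * a := by
          rw [c2]
          have : (rho + 7 / 8) * (3 / 8) ≤ s * a :=
            mul_le_mul (by linarith) ha8 (by norm_num) (by linarith)
          linarith
        have g4 : (rho + 3 / 8) * (rho + 3 / 8) ≤ (s - 1 / 2) * (s - 1 / 2) :=
          mul_le_mul (by linarith) (by linarith) (by linarith) (by linarith)
        have g3 : (3 / 8 : ℝ) * (rho + 7 / 8)
            * (2 - rho + (rho + 3 / 8) + 2 * ((rho + 3 / 8) * (rho + 3 / 8)))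
            ≤ eta * s * a * (2 - rho + (s - 1 / 2) + 2 * ((s - 1 / 2) * (s - 1 / 2))) :=
          mul_le_mul hE (by linarith)
            (by have := mul_self_nonneg (rho + 3 / 8); linarith) hE0
        exact le_trans (p6 rho h0 c3) g3
      · have hE : (97 / 240 : ℝ) * (rho + 209 / 224) ≤ eta * s * a := by
          have g1 : 14 / 15 * (rho + 209 / 224) ≤ eta * s :=
            mul_le_mul c2 (by linarith) (by linarith) (by linarith)
          have g2 : 14 / 15 * (rho + 209 / 224) * (97 / 224) ≤ eta * s * a :=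
            mul_le_mul g1 (by linarith) (by norm_num) (by positivity)
          linarith
        have g4 : (rho + 97 / 224) * (rho + 97 / 224) ≤ (s - 1 / 2) * (s - 1 / 2) :=
          mul_le_mul (by linarith) (by linarith) (by linarith) (by linarith)
        have g3 : (97 / 240 : ℝ) * (rho + 209 / 224)
            * (2 - rho + (rho + 97 / 224) + 2 * ((rho + 97 / 224) * (rho + 97 / 224)))
            ≤ eta * s * a * (2 - rho + (s - 1 / 2) + 2 * ((s - 1 / 2) * (s - 1 / 2))) :=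
          mul_le_mul hE (by linarith)
            (by have := mul_self_nonneg (rho + 97 / 224); linarith) hE0
        exact le_trans (p7 rho h0 (by linarith)) g3

end Pool.Agent.Lib_helper35.SRC
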